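import Pool.Agent.Helper46.MaxExpI

open Pool.Agent.Helper46.MaxExp

namespace Pool.Agent.Results.MP_2ee812_an.ValidIffLeSix

/-- `S_n(a_1, …, a_n)`: the alternating sum over the nonempty subsets `J` of the index set
`{1, …, n}` (here `Fin n`). -/
noncomputable def S (n : ℕ) (a : Fin n → ℝ) : ℝ :=
  ∑ J : Finset (Fin n) with J.Nonempty, (-1) ^ (J.card + 1) * (∑ j ∈ J, a j)⁻¹

/-- The inequality `(∗)` is valid for `n`. -/
def Valid (n : ℕ) : Prop :=
  ∀ a : Fin n → ℝ, (∀ i, 0 < a i) → Real.sqrt (∑ i, ((a i) ^ 2)⁻¹) ≤ S n a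

lemma S_eq_SS (n : ℕ) (a : Fin n → ℝ) : S n a = SS Finset.univ a := by
  unfold S SS
  rw [Finset.powerset_univ, Finset.sum_filter]
  apply Finset.sum_congr rfl
  intro J _
  by_cases h : J.Nonempty
  · simp [h]
  · rw [Finset.not_nonempty_iff_eq_empty] at h
    subst h
    simp

/-- `(∗)` is valid for `n` exactly when `n ≤ 6`. -/
theorem result (n : ℕ) (_hn : 1 ≤ n) : Valid n ↔ n ≤ 6 := by
  constructor
  · intro h
    by_contra hcon
    have h7 : 7 ≤ n := by omega
    have h1 := h (fun _ => 1) (fun _ => one_pos)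
    rw [S_eq_SS, SS_one] at h1
    have h2 := HI_lt_sqrt h7
    simp at h1
    linarith
  · intro h6 a ha
    rw [S_eq_SS]
    have h := main_le_six (Finset.univ : Finset (Fin n)) (by simpa using h6) a
      (fun i _ => ha i)
    have h0 : 0 ≤ SS Finset.univ a := SS_nonneg (fun i _ => ha i)
    rw [← Real.sqrt_sq h0]
    exact Real.sqrt_le_sqrt h

end Pool.Agent.Results.MP_2ee812_an.ValidIffLeSix
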